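import Pool.Agent.H73.Final

/-!
# MP_cb9bff_gt, Q2: maps of corank at most one without folds

Q2 asks for the classification up to diffeomorphism of the closed simply connected smooth
4-manifolds with a given intersection form.  The theorem recognises `X` as diffeomorphic to `Y` from
a single smooth map `f : X → Y`; nothing is assumed about its fibres (they may be uncountable and
contain arcs, and the set of singular points may have interior), its degree or its homotopy class.

Let `X`, `Y` be closed oriented smooth `n`-manifolds (for Q2: `n = 4`), `X` connected, `Y` simply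
connected, and let `f : X → Y` be a smooth map whose differential has rank at least `n - 1`
everywhere, whose Jacobian determinant is nowhere negative, and which has at least one regular
point.  Then `f` is the beginning `H 0` of a homotopy `H t`, as small as we please and constant off
any given neighbourhood of the singular points, such that every `H t`, `t > 0`, is a diffeomorphism.
In particular `X` and `Y` are diffeomorphic.  If `Y` is not simply connected, the `H t` with `t > 0`
are covering maps, and they are diffeomorphisms also if `f` is homotopic to a homeomorphism.  There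
is a version without orientations: then the regular points are assumed to be dense, and the Jacobian
is assumed not to change sign near any point.

Both hypotheses are needed.  With folds (changes of sign of the Jacobian) there are maps of corank
one between manifolds which are not homeomorphic (Eliashberg).  With Jacobian nonnegative but
corank two there are the branched coverings of `S^4` by arbitrary closed oriented 4-manifolds
(Piergallini).

The method: near a singular point `n - 1` coordinates of `f` are coordinates of `X`, and the
remaining one is weakly monotone along their fibres, the kernel curves.  The first variation of the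
Jacobian in direction `N` at a singular point `x` is positive iff `N` moves the kernel direction out
of the image of the differential, to the correct side.  One needs a map of `X` near the fibre
of `y` to `ℝ^n` whose differential lies in this cone at all singular points of the fibre.  The
components of the singular part of the fibre are kernel arcs, on which such a map exists, unless a
component is a closed kernel curve or an arc with coherently directed ends; it is shown that
such components would fill up an open and closed set of singular points.
-/

set_option autoImplicit false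

open Set Filter Topology Metric Function
open scoped Manifold ContDiff

noncomputable section

namespace Pool.Agent.Results.MP_cb9bff_gt.CorankOneNoFolds

/-- `ℝ^n` -/
abbrev R (n : ℕ) : Type := EuclideanSpace ℝ (Fin n)

/-- the linear map `L` of `ℝ^n` has rank at least `r`: composed with some linear map it is onto
`ℝ^r` -/
def RankAtLeast (r : ℕ) {n : ℕ} (L : R n →L[ℝ] R n) : Prop :=
  ∃ P : R n →L[ℝ] R r, Surjective (fun v => P (L v))

theorem RankAtLeast.le {r n : ℕ} {L : R n →L[ℝ] R n} (h : RankAtLeast r L) :
    r ≤ Module.finrank ℝ (LinearMap.range L.toLinearMap) := by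
  obtain ⟨P, hP⟩ := h
  have h4 : Surjective (P.toLinearMap ∘ₗ (LinearMap.range L.toLinearMap).subtype) := by
    intro w
    obtain ⟨v, hv⟩ := hP w
    exact ⟨⟨_, LinearMap.mem_range_self _ v⟩, hv⟩
  have h5 := LinearMap.finrank_le_finrank_of_surjective h4
  rwa [finrank_euclideanSpace, Fintype.card_fin] at h5

section defs

variable (n : ℕ) {X Y : Type} [TopologicalSpace X] [ChartedSpace (R n) X]
  [TopologicalSpace Y] [ChartedSpace (R n) Y]

/-- `f` is a smooth local diffeomorphism at `x` (`x` is a regular point) -/
def LocDiff (f : X → Y) (x : X) : Prop := IsLocalDiffeomorphAt (𝓡 n) (𝓡 n) ∞ f x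

/-- the Jacobian determinant of `f` does not change sign near `x`: it is nonnegative near `x` in
some smooth coordinates around `x` (the parametrization `A`) and around `f x` (the chart `B`) -/
def JacobianNonneg (f : X → Y) (x : X) : Prop :=
  ∃ (A : R n → X) (B : Y → R n), A 0 = x ∧ LocDiff n A 0 ∧ LocDiff n B (f x) ∧
    ∀ᶠ z in 𝓝 (0 : R n), 0 ≤ (fderiv ℝ (fun p => B (f (A p))) z).det

/-- the coordinate changes between the charts of the atlas of `M` have positive Jacobian
determinants -/
def OrientedAtlas (M : Type) [TopologicalSpace M] [ChartedSpace (R n) M] : Prop :=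
  ∀ e ∈ atlas (R n) M, ∀ e' ∈ atlas (R n) M, ∀ x ∈ e.source, x ∈ e'.source →
    0 < (fderiv ℝ (fun z => e' (e.symm z)) (e x)).det

/-- the Jacobian determinant of `f` is nowhere negative, in the charts of the atlases -/
def NonnegDet (f : X → Y) : Prop :=
  ∀ x, 0 ≤ ContinuousLinearMap.det
    (show R n →L[ℝ] R n from mfderiv (𝓡 n) (𝓡 n) f x)

/-- either the regular points of `f` are dense and the Jacobian of `f` does not change sign near
any point; or `X` and `Y` are oriented, the Jacobian of `f` is nowhere negative, and every
nonempty open and closed subset of `X` (for connected `X`: `X` itself) contains a regular point -/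
def NoFolds (f : X → Y) : Prop :=
  (Dense {x | LocDiff n f x} ∧ ∀ x, JacobianNonneg n f x) ∨
  (OrientedAtlas n X ∧ OrientedAtlas n Y ∧ NonnegDet n f ∧
    ∀ C : Set X, IsClopen C → C.Nonempty → ∃ x ∈ C, LocDiff n f x)

end defs

/-- Smooth maps of corank at most one without folds are limits of covering maps, through a small
homotopy; they are limits of diffeomorphisms if the target is simply connected. -/
theorem result (n : ℕ) (hn : 1 ≤ n) (X Y : Type) [TopologicalSpace X] [T2Space X] [CompactSpace X]
    [ChartedSpace (R n) X] [IsManifold (𝓡 n) ∞ X]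
    [TopologicalSpace Y] [T2Space Y] [ChartedSpace (R n) Y] [IsManifold (𝓡 n) ∞ Y]
    (f : X → Y) (hf : ContMDiff (𝓡 n) (𝓡 n) ∞ f)
    (hrk : ∀ x, RankAtLeast (n - 1) (mfderiv (𝓡 n) (𝓡 n) f x)) (hJ : NoFolds n f)
    (V : Set X) (hV : IsOpen V) (hVf : ∀ x, x ∉ V → LocDiff n f x)
    (O : Set (X × Y)) (hO : IsOpen O) (hfO : ∀ x, (x, f x) ∈ O) :
    ∃ H : C(unitInterval × X, Y), (∀ x, H (0, x) = f x) ∧ (∀ t x, (x, H (t, x)) ∈ O) ∧
      (∀ t x, x ∉ V → H (t, x) = f x) ∧
      ∀ t, 0 < t → (∀ x, LocDiff n (fun x => H (t, x)) x) ∧ IsCoveringMap (fun x => H (t, x)) ∧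
        ((ConnectedSpace X ∧ SimplyConnectedSpace Y) ∨
          (∃ (h : X ≃ₜ Y) (G : C(unitInterval × X, Y)), (∀ x, G (0, x) = f x) ∧
            ∀ x, G (1, x) = h x) →
          ∃ Φ : Diffeomorph (𝓡 n) (𝓡 n) X Y ∞, ∀ x, Φ x = H (t, x)) := by
  obtain ⟨m, rfl⟩ : ∃ m : ℕ, n = m + 1 := ⟨n - 1, by omega⟩
  have hrk' : ∀ x, m ≤ Module.finrank ℝ
      (LinearMap.range (Pool.Agent.H73.Df (n := m + 1) f x).toLinearMap) := fun x => (hrk x).le
  have key : ∃ σ : X → ℝ, Pool.Agent.H73.Sgn (n := m + 1) f σ ∧
      ∀ C : Set X, IsClopen C → C.Nonempty → ∃ x ∈ C, Pool.Agent.Y522.LD (m + 1) f x := by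
    rcases hJ with ⟨hd, hJ⟩ | ⟨hX, hY, hJ, hr⟩
    · obtain ⟨σ, hσ⟩ := Pool.Agent.H73.exists_sgn_of_JNN hf hJ hd
      exact ⟨σ, hσ, fun C hC hne => hd.inter_open_nonempty C hC.2 hne⟩
    · exact ⟨_, Pool.Agent.H73.sgn_of_OrA hf (fun e he e' he' x hx hx' => hX e he e' he' x hx hx')
        (fun e he e' he' x hx hx' => hY e he e' he' x hx hx') hJ, hr⟩
  obtain ⟨σ, hσ, hreg⟩ := key
  obtain ⟨H, h0, h1, h2, h3⟩ := Pool.Agent.H73.main_perturb hf hσ hrk' hreg hV hVf hO hfO
  exact ⟨H, h0, h1, h2, fun t ht => ⟨h3 t ht, Pool.Agent.H73.conclude H h0 (h3 t ht)⟩⟩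

end Pool.Agent.Results.MP_cb9bff_gt.CorankOneNoFolds
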